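import Pool.Agent.W14.US.Stm

set_option autoImplicit false
open Complex MeasureTheory Pool.Agent.W14.US

namespace Pool.Agent.W482.US

theorem strip : S_STRIP := by
  intro b c s R hs hR
  have key : ∀ A B : Set ℝ, volume (Complex.measurableEquivRealProd ⁻¹' (A ×ˢ B)) = volume A * volume B := by
    intro A B
    rw [Complex.volume_preserving_equiv_real_prod.measure_preimage_equiv, Measure.volume_eq_prod,
      Measure.prod_prod]
  cases b with
  | false =>
    have hsub : {w : ℂ | |co false w - c| ≤ s ∧ ‖w‖ ≤ R} ⊆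
        Complex.measurableEquivRealProd ⁻¹' (Set.Icc (c - s) (c + s) ×ˢ Set.Icc (-R) R) := by
      rintro w ⟨h1, h2⟩
      have h3 : |w.re - c| ≤ s := by simpa [co] using h1
      have h4 : |w.im| ≤ R := (Complex.abs_im_le_norm w).trans h2
      rw [abs_le] at h3 h4
      refine ⟨⟨?_, ?_⟩, ⟨?_, ?_⟩⟩ <;> simp [Complex.measurableEquivRealProd_apply] <;> linarith
    refine (measure_mono hsub).trans ?_
    rw [key, Real.volume_Icc, Real.volume_Icc, ← ENNReal.ofReal_mul (by linarith)]
    apply ENNReal.ofReal_le_ofReal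
    nlinarith
  | true =>
    have hsub : {w : ℂ | |co true w - c| ≤ s ∧ ‖w‖ ≤ R} ⊆
        Complex.measurableEquivRealProd ⁻¹' (Set.Icc (-R) R ×ˢ Set.Icc (c - s) (c + s)) := by
      rintro w ⟨h1, h2⟩
      have h3 : |w.im - c| ≤ s := by simpa [co] using h1
      have h4 : |w.re| ≤ R := (Complex.abs_re_le_norm w).trans h2
      rw [abs_le] at h3 h4
      refine ⟨⟨?_, ?_⟩, ⟨?_, ?_⟩⟩ <;> simp [Complex.measurableEquivRealProd_apply] <;> linarith
    refine (measure_mono hsub).trans ?_
    rw [key, Real.volume_Icc, Real.volume_Icc, ← ENNReal.ofReal_mul (by linarith)]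
    apply ENNReal.ofReal_le_ofReal
    nlinarith

end Pool.Agent.W482.US
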